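import Mathlib
import Pool.Agent.H2.Cont2

open Set Filter Topology Matrix UniformSpace

namespace Pool.Agent.Results.MP_242378_al.Contractible

variable (F : Type) [Field F]

abbrev Mat (n : ℕ) : Type := Matrix (Fin (2 ^ n)) (Fin (2 ^ n)) F

def eqv (n : ℕ) : Fin (2 ^ n) ⊕ Fin (2 ^ n) ≃ Fin (2 ^ (n + 1)) :=
  finSumFinEquiv.trans (finCongr (by ring))

variable {F} in
def blk {n : ℕ} (x y : Mat F n) : Mat F (n + 1) := reindex (eqv n) (eqv n) (fromBlocks x 0 0 y)

variable {F} in
theorem blk_mul {n : ℕ} (x y x' y' : Mat F n) : blk x y * blk x' y' = blk (x * x') (y * y') := by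
  simp [blk, fromBlocks_multiply]

variable {F} in
theorem blk_add {n : ℕ} (x y x' y' : Mat F n) : blk x y + blk x' y' = blk (x + x') (y + y') := by
  ext i j
  simp only [blk, reindex_apply, Matrix.add_apply, submatrix_apply]
  rcases (eqv n).symm i <;> rcases (eqv n).symm j <;> simp

theorem blk_one (n : ℕ) : blk (1 : Mat F n) 1 = 1 := by simp [blk]

def dbl (n : ℕ) : Mat F n →+* Mat F (n + 1) where
  toFun x := blk x x
  map_one' := blk_one F n
  map_mul' x y := (blk_mul x x y y).symm
  map_zero' := by simp [blk]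
  map_add' x y := (blk_add x x y y).symm

def up (i j : ℕ) (h : i ≤ j) : Mat F i →+* Mat F j :=
  Nat.leRecOn h (fun {k} g => (dbl F k).comp g) (RingHom.id _)

theorem up_self (i : ℕ) : up F i i le_rfl = RingHom.id _ := Nat.leRecOn_self _

theorem up_succ {i j : ℕ} (h : i ≤ j) (h' : i ≤ j + 1) :
    up F i (j + 1) h' = (dbl F j).comp (up F i j h) := Nat.leRecOn_succ h _

instance : DirectedSystem (Mat F) (up F · · ·) where
  map_self i x := by rw [up_self]; rfl
  map_map k j i hij hjk x := by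
    induction k, hjk using Nat.le_induction with
    | base => rw [up_self]; rfl
    | succ k h ih => rw [up_succ F h, up_succ F (hij.trans h), RingHom.comp_apply, ih]; rfl

theorem normal {m : Type} [Fintype m] [DecidableEq m] (x : Matrix m m F) :
    ∃ (P Q : Matrix m m F) (D : m → F), IsUnit P.det ∧ IsUnit Q.det ∧ x = P * diagonal D * Q := by
  obtain ⟨L, L', D, h⟩ := Pivot.exists_list_transvec_mul_diagonal_mul_list_transvec x
  exact ⟨_, _, D, by simp, by simp, h⟩

theorem rank_blk {n : ℕ} (x y : Mat F n) : (blk x y).rank = x.rank + y.rank := by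
  classical
  obtain ⟨P, Q, D, hP, hQ, rfl⟩ := normal F x
  obtain ⟨P', Q', D', hP', hQ', rfl⟩ := normal F y
  have e : fromBlocks (P * diagonal D * Q) 0 0 (P' * diagonal D' * Q') =
      fromBlocks P 0 0 P' * diagonal (Sum.elim D D') * fromBlocks Q 0 0 Q' := by
    rw [← fromBlocks_diagonal, fromBlocks_multiply, fromBlocks_multiply]; simp
  rw [blk, rank_reindex, e, rank_mul_eq_left_of_isUnit_det _ _ (by simp [hQ.ne_zero, hQ'.ne_zero]),
    rank_mul_eq_right_of_isUnit_det _ _ (by simp [hP.ne_zero, hP'.ne_zero]),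
    rank_mul_eq_left_of_isUnit_det _ _ hQ, rank_mul_eq_right_of_isUnit_det _ _ hP,
    rank_mul_eq_left_of_isUnit_det _ _ hQ', rank_mul_eq_right_of_isUnit_det _ _ hP',
    rank_diagonal, rank_diagonal, rank_diagonal, Fintype.card_congr Equiv.subtypeSum,
    Fintype.card_sum]
  rfl

theorem rank_add {m : Type} [Fintype m] (x y : Matrix m m F) :
    (x + y).rank ≤ x.rank + y.rank := by
  refine le_trans (Submodule.finrank_mono ?_) (Submodule.finrank_add_le_finrank_add_finrank _ _)
  rintro _ ⟨v, rfl⟩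
  rw [mulVecLin_add]
  exact Submodule.add_mem_sup ⟨v, rfl⟩ ⟨v, rfl⟩

theorem rank_up (i j : ℕ) (h : i ≤ j) (x : Mat F i) :
    (x.rank : ℝ) / 2 ^ i = ((up F i j h x).rank : ℝ) / 2 ^ j := by
  induction j, h using Nat.le_induction with
  | base => rw [up_self]; rfl
  | succ j h ih =>
    rw [up_succ F h, ih]
    change _ = ((blk _ _).rank : ℝ) / _
    rw [rank_blk]
    push_cast
    field_simp
    ring

def R : Type := DirectLimit (Mat F) (up F)

noncomputable instance : Ring (R F) := (inferInstance : Ring (DirectLimit (Mat F) (up F)))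

noncomputable def of (n : ℕ) : Mat F n →+* R F := DirectLimit.Ring.of (Mat F) (up F) n

noncomputable def rk : R F → ℝ :=
  DirectLimit.lift (up F) (fun n x => (x.rank : ℝ) / 2 ^ n) (rank_up F)

theorem rk_of (n : ℕ) (x : Mat F n) : rk F (of F n x) = (x.rank : ℝ) / 2 ^ n := rfl

theorem ex₂ (a b : R F) : ∃ n x y, a = of F n x ∧ b = of F n y := DirectLimit.exists_eq_mk₂ _ a b

theorem rk_add (a b : R F) : rk F (a + b) ≤ rk F a + rk F b := by
  obtain ⟨n, x, y, rfl, rfl⟩ := ex₂ F a b
  rw [← map_add, rk_of, rk_of, rk_of, ← add_div]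
  exact div_le_div_of_nonneg_right (by exact_mod_cast rank_add F x y) (by positivity)

theorem rk_mul (a b : R F) : rk F (a * b) ≤ rk F a ∧ rk F (a * b) ≤ rk F b := by
  obtain ⟨n, x, y, rfl, rfl⟩ := ex₂ F a b
  rw [← map_mul, rk_of, rk_of, rk_of]
  exact ⟨div_le_div_of_nonneg_right (by exact_mod_cast rank_mul_le_left x y) (by positivity),
    div_le_div_of_nonneg_right (by exact_mod_cast rank_mul_le_right x y) (by positivity)⟩

theorem rk_neg (a : R F) : rk F (-a) = rk F a :=
  le_antisymm (by simpa using (rk_mul F (-1) a).2) (by simpa using (rk_mul F (-1) (-a)).2)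

noncomputable instance : PseudoMetricSpace (R F) where
  dist a b := rk F (a - b)
  dist_self a := by rw [sub_self, ← map_zero (of F 0), rk_of]; simp
  dist_comm a b := by rw [← rk_neg, neg_sub]
  dist_triangle a b c := by simpa using rk_add F (a - b) (b - c)

theorem dist_R (a b : R F) : dist a b = rk F (a - b) := rfl

instance : IsUniformAddGroup (R F) where
  uniformContinuous_sub := (LipschitzWith.of_dist_le_mul (K := 2) fun a b => by
    have h := rk_add F (a.1 - b.1) (-(a.2 - b.2))
    rw [rk_neg, ← dist_R, ← dist_R,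
      show a.1 - b.1 + -(a.2 - b.2) = a.1 - a.2 - (b.1 - b.2) by abel, ← dist_R] at h
    have h1 : dist a.1 b.1 ≤ dist a b := le_max_left _ _
    have h2 : dist a.2 b.2 ≤ dist a b := le_max_right _ _
    push_cast
    linarith).uniformContinuous

instance : IsTopologicalRing (R F) where
  continuous_mul := (LipschitzWith.of_dist_le_mul (K := 2) fun a b => by
    have h := rk_add F ((a.1 - b.1) * a.2) (b.1 * (a.2 - b.2))
    rw [show (a.1 - b.1) * a.2 + b.1 * (a.2 - b.2) = a.1 * a.2 - b.1 * b.2 by noncomm_ring,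
      ← dist_R] at h
    have h1 : rk F (a.1 - b.1) ≤ dist a b := le_max_left _ _
    have h2 : rk F (a.2 - b.2) ≤ dist a b := le_max_right _ _
    push_cast
    linarith [(rk_mul F (a.1 - b.1) a.2).1, (rk_mul F b.1 (a.2 - b.2)).2]).continuous

abbrev M : Type := Completion (R F)

abbrev A : Type := {x : M F // IsUnit x}

noncomputable def ι (n : ℕ) : Mat F n →+* M F := Completion.coeRingHom.comp (of F n)

theorem ι_up {i j : ℕ} (h : i ≤ j) (x : Mat F i) : ι F j (up F i j h x) = ι F i x :=
  congrArg Completion.coeRingHom (DirectLimit.Ring.of_f h x)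

theorem ι_dbl (n : ℕ) (x : Mat F n) : ι F n x = ι F (n + 1) (blk x x) := by
  rw [← ι_up F (Nat.le_succ n), up_succ F le_rfl, up_self]; rfl

theorem dist_ι (n : ℕ) (x y : Mat F n) :
    dist (ι F n x) (ι F n y) = ((x - y).rank : ℝ) / 2 ^ n := by
  rw [← rk_of, map_sub]; exact Completion.dist_eq _ _

theorem dist_ι0 (n : ℕ) (x : Mat F n) : dist (ι F n x) 0 = (x.rank : ℝ) / 2 ^ n := by
  rw [← map_zero (ι F n), dist_ι, sub_zero]

noncomputable def data : Pool.Agent.H2.Cont.Data (M F) where
  L n := (ι F n).range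
  s n := ι F (n + 1) (blk 1 0)
  mono i j h := by rintro _ ⟨x, rfl⟩; exact ⟨_, ι_up F h x⟩
  s_mem n := ⟨_, rfl⟩
  s_idem n := by rw [← map_mul, blk_mul]; simp
  s_comm n := by
    rintro _ ⟨x, rfl⟩
    rw [ι_dbl F n x, ← map_mul, ← map_mul, blk_mul, blk_mul]; simp
  avg n := by
    rintro _ ⟨x, rfl⟩ _ ⟨y, rfl⟩
    have e : (1 : Mat F (n + 1)) - blk 1 0 = blk 0 1 := by
      rw [sub_eq_iff_eq_add, blk_add, zero_add, add_zero, blk_one]
    rw [dist_ι0, dist_ι0, ι_dbl F n x, ι_dbl F n y, ← map_one (ι F (n + 1)), ← map_sub, e,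
      ← map_mul, ← map_mul, ← map_add, blk_mul, blk_mul, blk_add, dist_ι0, rank_blk]
    simp only [mul_one, mul_zero, add_zero, zero_add]
    push_cast
    field_simp
    ring
  one := by rw [← map_one (ι F 0), dist_ι0]; simp
  sub x y := by
    refine Completion.induction_on₂ x y (isClosed_eq (by fun_prop) (by fun_prop)) fun a b => ?_
    rw [← Completion.coe_sub, ← Completion.coe_zero, Completion.dist_eq, Completion.dist_eq,
      dist_R, dist_R, sub_zero]
  le_one x := by
    refine Completion.induction_on x (isClosed_le (by fun_prop) (by fun_prop)) fun a => ?_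
    obtain ⟨n, x, -, rfl, -⟩ := ex₂ F a a
    refine (dist_ι0 F n x).trans_le (div_le_one_of_le₀ ?_ (by positivity))
    exact_mod_cast x.rank_le_width

theorem near_unit {m : Type} [Fintype m] [DecidableEq m] (x : Matrix m m F) :
    ∃ u : Matrix m m F, IsUnit u ∧ (u - x).rank + x.rank = Fintype.card m := by
  classical
  obtain ⟨P, Q, D, hP, hQ, rfl⟩ := normal F x
  refine ⟨P * diagonal (fun i => if D i = 0 then 1 else D i) * Q, ?_, ?_⟩
  · rw [isUnit_iff_isUnit_det, det_mul, det_mul, det_diagonal]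
    refine (hP.mul (IsUnit.mk0 _ (Finset.prod_ne_zero_iff.2 fun i _ => ?_))).mul hQ
    split_ifs with h
    exacts [one_ne_zero, h]
  · rw [← Matrix.sub_mul, ← Matrix.mul_sub, diagonal_sub, rank_mul_eq_left_of_isUnit_det _ _ hQ,
      rank_mul_eq_right_of_isUnit_det _ _ hP, rank_mul_eq_left_of_isUnit_det _ _ hQ,
      rank_mul_eq_right_of_isUnit_det _ _ hP, rank_diagonal, rank_diagonal,
      Fintype.card_congr (Equiv.subtypeEquivRight (q := fun i => ¬ D i ≠ 0) fun i => by
        by_cases h : D i = 0 <;> simp [h]), Fintype.card_subtype_compl,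
      Nat.sub_add_cancel (Fintype.card_subtype_le _)]

theorem dense (g : M F) (hg : IsUnit g) (ε : ℝ) (hε : 0 < ε) :
    ∃ n, ∃ u : Mat F n, IsUnit u ∧ dist g (ι F n u) < ε := by
  obtain ⟨g, rfl⟩ := hg
  have o : IsOpen {p : M F × M F | dist (g : M F) p.1 < ε / 2 ∧ dist 1 (p.1 * p.2) < ε / 2} :=
    IsOpen.and (isOpen_lt (by fun_prop) (by fun_prop)) (isOpen_lt (by fun_prop) (by fun_prop))
  obtain ⟨⟨a, b⟩, h1, h2⟩ := (Completion.denseRange_coe₂ (α := R F) (β := R F)).exists_mem_open o
    ⟨(g, ↑g⁻¹), by simpa using hε⟩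
  obtain ⟨n, x, y, rfl, rfl⟩ := ex₂ F a b
  obtain ⟨u, hu, h⟩ := near_unit F x
  refine ⟨n, u, hu, ?_⟩
  change dist _ (ι F n x) < _ at h1
  change dist _ (ι F n x * ι F n y) < _ at h2
  rw [← map_one (ι F n), ← map_mul, dist_ι] at h2
  have h3 := rank_add F (1 - x * y) (x * y)
  rw [sub_add_cancel, rank_one] at h3
  have h4 := rank_mul_le_left x y
  have h5 : dist (ι F n u) (ι F n x) ≤ ((1 - x * y).rank : ℝ) / 2 ^ n := by
    rw [dist_ι]
    exact div_le_div_of_nonneg_right (by exact_mod_cast (by omega)) (by positivity)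
  linarith [dist_triangle_right (g : M F) (ι F n u) (ι F n x)]

theorem result (F : Type) [Field F] [Finite F] : ContractibleSpace (A F) := by
  have : Nonempty (Σ n, {u : Mat F n // IsUnit u}) := ⟨⟨0, 1, isUnit_one⟩⟩
  obtain ⟨w, hw⟩ := exists_surjective_nat (Σ n, {u : Mat F n // IsUnit u})
  refine (data F).contractible (v := fun j => ι F _ (w j).2.1)
    (n := fun j => (Finset.range (j + 1)).sup fun i => (w i).1)
    (fun i j h => Finset.sup_mono (Finset.range_mono (by omega)))
    (fun j => ⟨(data F).mono (Finset.le_sup (f := fun i => (w i).1) (Finset.self_mem_range_succ j))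
      ⟨_, rfl⟩, (w j).2.2.map _⟩) fun g hg ε hε => ?_
  obtain ⟨n, u, hu, h⟩ := dense F g hg ε hε
  obtain ⟨j, hj⟩ := hw ⟨n, u, hu⟩
  exact ⟨j, by rw [hj]; exact h⟩

end Pool.Agent.Results.MP_242378_al.Contractible
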